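import Pool.Agent.Y821.GK.All
import Pool.Agent.Y44.GK.Sum
import Pool.Agent.Y44.GK.Blk

set_option autoImplicit false

/-!
# MP_6a785f_an, Q1, uniform form: one linear map for all `1 ≤ p ≤ 2 ≤ q ≤ ∞`

For every `c ∈ (0,1)` there is a constant `C` (depending only on `c`) such that for all `N` and all
`n ≥ (1 - c) N²` one linear map `S` of rank `< n` on the real `N × N` matrices satisfies
`‖A - S A‖_{S_q} ≤ C N^{λ/2 - 2} √(N² - n + 1) ‖A‖_{S_p}` simultaneously for all exponents
`1 ≤ p ≤ 2 ≤ q ≤ ∞` (end points included) with `n ≤ N² - c N^λ + 1`, `λ = λ_{p,q}`; in particular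
the approximation number `a_n(id : S_p^N → S_q^N)` is at most this bound.

Definitions (`Pool.Agent.Y821.GK.Fin`, `Pool.Agent.H102R3.SCD`):
* `sv A i`, `i < N`, are the singular values of `A`; `schattenE p A` is `(∑ i, (sv A i) ^ p) ^ (1 / p)`
  for finite `p` and the largest singular value for `p = ∞`;
* `lamE p q = max (3 - 2 / p) (1 + 2 / q)`;
* `approxE N p q n` is the infimum of all `ε ≥ 0` for which some linear map `S` of rank `< n` satisfies
  `‖A - S A‖_{S_q} ≤ ε ‖A‖_{S_p}` for all `A`.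

Changes against the starting proof: dyadic blocks of singular values are formed by index, each block is
the product of a matrix of operator norm and one of Frobenius norm at most one, the maximum over all
pairs of blocks is taken inside the Gaussian expectation (with weights `√(N 2^a) (√k + √(N 2^b))`), all
blocks of rank at most `k / N` are lumped together, and Hölder's inequality sums the blocks without any
loss near `p = q = 2` or `p = 1`, `q = ∞`.
-/

namespace Pool.Agent.Results.MP_6a785f_an.OneMapAllExponents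

open Pool.Agent.Y821.GK

theorem result : ∀ c : ℝ, 0 < c → c < 1 → ∃ C : ℝ, 0 ≤ C ∧ ∀ N n : ℕ, 1 ≤ N →
    (1 - c) * (N : ℝ) ^ 2 ≤ n →
    ∃ S : Matrix (Fin N) (Fin N) ℝ →ₗ[ℝ] Matrix (Fin N) (Fin N) ℝ,
      Module.finrank ℝ (LinearMap.range S) < n ∧
      ∀ p q : ENNReal, 1 ≤ p → p ≤ 2 → 2 ≤ q →
        (n : ℝ) ≤ (N : ℝ) ^ 2 - c * (N : ℝ) ^ (lamE p q) + 1 →
        (∀ A, schattenE q (A - S A) ≤
          C * (N : ℝ) ^ (lamE p q / 2 - 2) * Real.sqrt ((N : ℝ) ^ 2 - n + 1) * schattenE p A) ∧
        approxE N p q n ≤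
          C * (N : ℝ) ^ (lamE p q / 2 - 2) * Real.sqrt ((N : ℝ) ^ 2 - n + 1) :=
  fun c hc0 hc1 => all Pool.Agent.Y44.GK.t_SUM Pool.Agent.Y44.GK.t_BLK c hc0 hc1

end Pool.Agent.Results.MP_6a785f_an.OneMapAllExponents
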